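import Pool.Agent.Run7.h234.HM
import Pool.Agent.Run7.h234.TensF

/-!
# Finite generation of cohomology under extensions of Hopf algebras

Let `A → C → B` be an exact sequence of Hopf algebras over a field `k` with `C`
finite-dimensional.  A Hopf algebra satisfies FGC when its cohomology ring `H^*(H, k)` is a finitely
generated algebra and, for all finite-dimensional modules `M`, `N`, the space `Ext^*_H(M, N)` is a
finitely generated module over it, the ring acting by tensoring with `M`.  We show that the FGC
property of `A` and `B` implies the FGC property of `C` when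

* the dimension of `A` is invertible in `k`, or every central Hopf subalgebra of `A` is
  semisimple, and
* the dimension of `B` is invertible in `k`, or every cocentral quotient Hopf algebra of `B` is
  semisimple.

In particular the question has a positive answer over every field of characteristic zero, and
over every field whose characteristic does not divide the dimensions of `A` and `B`.
-/

set_option autoImplicit false
set_option linter.unusedVariables false

universe u

open TensorProduct Coalgebra CategoryTheory CategoryTheory.Abelian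

namespace Pool.Agent.Results.MP_d746d7_al.FgcExtensionAllModules

section cat

variable {𝒞 : Type (u + 1)} [Category.{u} 𝒞] [Abelian 𝒞] [HasExt.{u} 𝒞]

/-- The graded `k`-algebra `Ext^*(X, X)` with the Yoneda product is finitely generated: there are
finitely many homogeneous elements such that the only graded `k`-subalgebra (given by its
homogeneous parts `P n`) containing them is the whole algebra. -/
def ExtAlgFG (k : Type u) [Field k] [Linear k 𝒞] (X : 𝒞) : Prop :=
  ∃ s : Set (Σ n : ℕ, Ext.{u} X X n), s.Finite ∧
    ∀ P : (∀ n : ℕ, Submodule k (Ext.{u} X X n)),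
      Ext.mk₀ (𝟙 X) ∈ P 0 →
      (∀ a ∈ s, a.2 ∈ P a.1) →
      (∀ (i j : ℕ) (a : Ext.{u} X X i) (b : Ext.{u} X X j), a ∈ P i → b ∈ P j →
        a.comp b rfl ∈ P (i + j)) →
      ∀ (n : ℕ) (x : Ext.{u} X X n), x ∈ P n

end cat

section defs

variable (k : Type u) [Field k]

/-- The trivial module of a Hopf algebra: the ground field with the action through the counit. -/
noncomputable def triv (H : Type u) [Ring H] [HopfAlgebra k H] : ModuleCat.{u} H :=
  (ModuleCat.restrictScalars.{u} (Bialgebra.counitAlgHom k H).toRingHom).obj (ModuleCat.of k k)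

/-- The exact functor `X ↦ X ⊗_k M` on `H`-modules, `h` acting on `X ⊗_k M` through
`comul h ∈ H ⊗ H`. -/
noncomputable def tensM (H : Type u) [Ring H] [HopfAlgebra k H] (M : ModuleCat.{u} H) :
    ModuleCat.{u} H ⥤ ModuleCat.{u} H :=
  Run7.h234.boxL k M ⋙ ModuleCat.restrictScalars.{u} (Bialgebra.comulAlgHom k H).toRingHom

variable {k} in
/-- The map `k ⊗ M → M`, `t ⊗ m ↦ t m`. -/
noncomputable def unitTo {H : Type u} [Ring H] [HopfAlgebra k H] (M : ModuleCat.{u} H) :
    (tensM k H M).obj (triv k H) ⟶ M := Run7.h234.lam M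

variable {k} in
/-- The inverse map `M → k ⊗ M`, `m ↦ 1 ⊗ m`. -/
noncomputable def unitFrom {H : Type u} [Ring H] [HopfAlgebra k H] (M : ModuleCat.{u} H) :
    M ⟶ (tensM k H M).obj (triv k H) := Run7.h234.lamInv M

instance tensM_add (H : Type u) [Ring H] [HopfAlgebra k H] (M : ModuleCat.{u} H) :
    (tensM k H M).Additive :=
  inferInstanceAs (Run7.h234.tens k M).Additive

instance tensM_lim (H : Type u) [Ring H] [HopfAlgebra k H] (M : ModuleCat.{u} H) :
    Limits.PreservesFiniteLimits (tensM k H M) :=
  inferInstanceAs (Limits.PreservesFiniteLimits (Run7.h234.tens k M))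

instance tensM_colim (H : Type u) [Ring H] [HopfAlgebra k H] (M : ModuleCat.{u} H) :
    Limits.PreservesFiniteColimits (tensM k H M) :=
  inferInstanceAs (Limits.PreservesFiniteColimits (Run7.h234.tens k M))

variable {k} in
/-- The action of a cohomology class `a ∈ Ext^i(k, k)` on `b ∈ Ext^j(M, N)`: the Yoneda product of
`a ⊗ M ∈ Ext^i(k ⊗ M, k ⊗ M) = Ext^i(M, M)` and `b`. -/
noncomputable def act {H : Type u} [Ring H] [HopfAlgebra k H] {M N : ModuleCat.{u} H} {i j : ℕ}
    (a : Ext.{u} (triv k H) (triv k H) i) (b : Ext.{u} M N j) : Ext.{u} M N (i + j) :=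
  (Ext.mk₀ (unitFrom (k := k) M)).comp
    ((a.mapExactFunctor (tensM k H M)).comp
      ((Ext.mk₀ (unitTo (k := k) M)).comp b (zero_add j)) rfl) (zero_add (i + j))

/-- `Ext^*(M, N)` is a finitely generated module over the cohomology ring: there are finitely many
homogeneous elements such that the only graded subgroup (given by its homogeneous parts `P n`)
that contains them and is stable under the action of the cohomology ring is the whole module. -/
def ExtFG (H : Type u) [Ring H] [HopfAlgebra k H] (M N : ModuleCat.{u} H) : Prop :=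
  ∃ s : Set (Σ n : ℕ, Ext.{u} M N n), s.Finite ∧
    ∀ P : (∀ n : ℕ, AddSubgroup (Ext.{u} M N n)),
      (∀ a ∈ s, a.2 ∈ P a.1) →
      (∀ (i j : ℕ) (a : Ext.{u} (triv k H) (triv k H) i) (b : Ext.{u} M N j), b ∈ P j →
        act a b ∈ P (i + j)) →
      ∀ (n : ℕ) (x : Ext.{u} M N n), x ∈ P n

/-- The FGC property: the cohomology ring `Ext_H^*(k, k)` is a finitely generated `k`-algebra,
and `Ext_H^*(M, N)` is a finitely generated module over it for all finite-dimensional `H`-modules
`M` and `N`. -/
def FGC (H : Type u) [Ring H] [HopfAlgebra k H] : Prop :=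
  ExtAlgFG k (triv k H) ∧
    ∀ (M N : Type u) [AddCommGroup M] [Module k M] [Module H M] [IsScalarTower k H M]
      [AddCommGroup N] [Module k N] [Module H N] [IsScalarTower k H N],
      Module.Finite k M → Module.Finite k N → ExtFG k H (ModuleCat.of H M) (ModuleCat.of H N)

/-- The left adjoint action: `Σ b₁ x S(b₂)`. -/
noncomputable def adL {B : Type u} [Ring B] [HopfAlgebra k B] (b x : B) : B :=
  LinearMap.mul' k B (TensorProduct.map (LinearMap.mulRight k x) (HopfAlgebra.antipode k)
    (comul (R := k) b))

/-- The right adjoint action: `Σ S(b₁) x b₂`. -/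
noncomputable def adR {B : Type u} [Ring B] [HopfAlgebra k B] (b x : B) : B :=
  LinearMap.mul' k B (TensorProduct.map (LinearMap.mulRight k x ∘ₗ HopfAlgebra.antipode k)
    LinearMap.id (comul (R := k) b))

/-- An exact sequence of Hopf algebras: `ι` is injective, `π` is surjective, the image of `ι` is
stable under the left and right adjoint actions, and the kernel of `π` is the left ideal
generated by the image of the augmentation ideal of `A`. -/
structure IsExact {A B C : Type u} [Ring A] [Ring B] [Ring C] [HopfAlgebra k A]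
    [HopfAlgebra k B] [HopfAlgebra k C] (ι : A →ₐc[k] B) (π : B →ₐc[k] C) : Prop where
  inj : Function.Injective ι
  surj : Function.Surjective π
  normal_left : ∀ (b : B) (a : A), adL k b (ι a) ∈ Set.range ι
  normal_right : ∀ (b : B) (a : A), adR k b (ι a) ∈ Set.range ι
  ker : ∀ b : B, π b = 0 ↔ b ∈ Ideal.span (ι '' {a : A | counit (R := k) a = 0})

/-- `j` embeds `Z` as a central Hopf subalgebra of `A`. -/
def IsCentralSub {Z A : Type u} [Ring Z] [HopfAlgebra k Z] [Ring A] [HopfAlgebra k A]
    (j : Z →ₐc[k] A) : Prop :=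
  Function.Injective j ∧ ∀ (z : Z) (a : A), j z * a = a * j z

/-- `p` is a cocentral quotient map: it is surjective and `Σ c₁ ⊗ p(c₂) = Σ c₂ ⊗ p(c₁)`. -/
def IsCocentralQuot {C Q : Type u} [Ring C] [HopfAlgebra k C] [Ring Q] [HopfAlgebra k Q]
    (p : C →ₐc[k] Q) : Prop :=
  Function.Surjective p ∧
    ∀ c : C, TensorProduct.map LinearMap.id (p : C →ₗ[k] Q) (comul (R := k) c) =
      TensorProduct.comm k Q C (TensorProduct.map (p : C →ₗ[k] Q) LinearMap.id
        (comul (R := k) c))

/-- Every central Hopf subalgebra of `A` is semisimple. -/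
def CentralSS (A : Type u) [Ring A] [HopfAlgebra k A] : Prop :=
  ∀ (Z : Type u) [Ring Z] [HopfAlgebra k Z] (j : Z →ₐc[k] A),
    IsCentralSub k j → IsSemisimpleRing Z

/-- Every cocentral quotient Hopf algebra of `C` is semisimple. -/
def CocentralSS (C : Type u) [Ring C] [HopfAlgebra k C] : Prop :=
  ∀ (Q : Type u) [Ring Q] [HopfAlgebra k Q] (p : C →ₐc[k] Q),
    IsCocentralQuot k p → IsSemisimpleRing Q

end defs

section aux

variable {k : Type u} [Field k]

theorem FGC.toFG {H : Type u} [Ring H] [HopfAlgebra k H] (h : FGC k H) :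
    Run7.h234.FG k (Run7.h234.FD k) (Run7.h234.trivH k H) := by
  refine ⟨Run7.h234.ExtAlgFG.toFiniteType h.1, fun M hM => ?_⟩
  let _ : Module k M := ModuleCat.moduleOfAlgebraModule (k := k) M
  have _ : IsScalarTower k H M := ModuleCat.isScalarTower_of_algebra_moduleCat M
  let _ : Module k (triv k H) := ModuleCat.moduleOfAlgebraModule (k := k) (triv k H)
  have _ : IsScalarTower k H (triv k H) :=
    ModuleCat.isScalarTower_of_algebra_moduleCat (triv k H)
  have hf : Module.Finite k (triv k H) := by
    refine Module.Finite.of_surjective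
      ({ toFun := fun t => Run7.h234.vt (k := k) (H := H) t
         map_add' := fun _ _ => rfl
         map_smul' := fun c t => (Run7.h234.tv_ksmul (H := H) c (Run7.h234.vt t)).symm } :
        k →ₗ[k] (triv k H)) fun t => ⟨t, rfl⟩
  have h1 : Run7.h234.ExtTensFG k (Run7.h234.trivH k H) M := h.2 (triv k H) M hf hM
  exact Run7.h234.ExtModFG.toFinite (Run7.h234.modFG_of_tensFG h1)

theorem fd_of {H : Type u} [Ring H] [HopfAlgebra k H] (M : Type u) [AddCommGroup M]
    [mk : Module k M] [Module H M] [IsScalarTower k H M] (hM : Module.Finite k M) :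
    Run7.h234.FD k (ModuleCat.of H M) := by
  have e : (ModuleCat.moduleOfAlgebraModule (k := k) (ModuleCat.of H M) : Module k M) = mk := by
    apply Module.ext'
    intro c m
    exact algebraMap_smul H c m
  change @Module.Finite k M _ _ (ModuleCat.moduleOfAlgebraModule (k := k) (ModuleCat.of H M))
  rw [e]
  exact hM

theorem FGC.ofFG {H : Type u} [Ring H] [HopfAlgebra k H]
    (h : Run7.h234.FG k (Run7.h234.FD k) (Run7.h234.trivH k H)) : FGC k H :=
  ⟨Run7.h234.ExtAlgFG.of_finiteType h.1, fun M N _ _ _ _ _ _ _ _ hM hN =>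
    Run7.h234.tensFG_of_FG h (fd_of M hM) (fd_of N hN)⟩

theorem adL_eq {B : Type u} [Ring B] [HopfAlgebra k B] (b x : B) :
    adL k b x = Run7.h234.adl (AlgHom.id k B) x b := by
  rw [adL, Run7.h234.adl]
  change _ = Run7.h234.adlM (AlgHom.id k B) x (comul (R := k) b)
  generalize comul (R := k) b = t
  induction t using TensorProduct.induction_on with
  | zero => simp
  | tmul u v => rfl
  | add s t hs ht => rw [map_add, map_add, map_add, hs, ht]

theorem adR_eq {B : Type u} [Ring B] [HopfAlgebra k B] (b x : B) :
    adR k b x = Run7.h234.adr (k := k) x b := by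
  rw [adR, Run7.h234.adr]
  change _ = Run7.h234.adM x (comul (R := k) b)
  generalize comul (R := k) b = t
  induction t using TensorProduct.induction_on with
  | zero => simp
  | tmul u v => rfl
  | add s t hs ht => rw [map_add, map_add, map_add, hs, ht]

end aux

/-- The main result, with the middle term called `B`. -/
theorem main (k : Type u) [Field k] (A B C : Type u) [Ring A] [Ring B] [Ring C]
    [HopfAlgebra k A] [HopfAlgebra k B] [HopfAlgebra k C] [Module.Finite k B]
    (ι : A →ₐc[k] B) (π : B →ₐc[k] C) (hex : IsExact k ι π)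
    (hA : (Module.finrank k A : k) ≠ 0 ∨ CentralSS k A)
    (hC : (Module.finrank k C : k) ≠ 0 ∨ CocentralSS k C)
    (fA : FGC k A) (fC : FGC k C) : FGC k B := by
  have hfA : Module.Finite k A :=
    Module.Finite.of_injective (Run7.h234.pal ι).toLinearMap hex.inj
  have hfC : Module.Finite k C :=
    Module.Finite.of_surjective (Run7.h234.pal π).toLinearMap hex.surj
  have hιπ : ∀ a, π (ι a) = counit (R := k) a • (1 : C) := by
    intro a
    have h1 : π (ι (a - counit (R := k) a • (1 : A))) = 0 := by
      rw [hex.ker]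
      refine Ideal.subset_span ⟨_, ?_, rfl⟩
      change counit (R := k) (a - counit (R := k) a • (1 : A)) = 0
      rw [map_sub, map_smul, Bialgebra.counit_one, smul_eq_mul, mul_one, sub_self]
    have h2 : Run7.h234.pal π (Run7.h234.pal ι (a - counit (R := k) a • (1 : A))) = 0 := h1
    rw [map_sub, map_smul, map_one, map_sub, map_smul, map_one, sub_eq_zero] at h2
    exact h2
  have hker : ∀ b, π b = 0 → b ∈ Ideal.span (ι '' {a | counit (R := k) a = 0}) :=
    fun b hb => (hex.ker b).1 hb
  have hnl : ∀ a b, Run7.h234.adl (AlgHom.id k B) (ι a) b ∈ Set.range ι := by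
    intro a b
    rw [← adL_eq]
    exact hex.normal_left b a
  have hnr : ∀ a b, Run7.h234.adr (k := k) (ι a) b ∈ Set.range ι := by
    intro a b
    rw [← adR_eq]
    exact hex.normal_right b a
  have htr : Run7.h234.TrH k A := by
    obtain h | h := hA
    · exact Run7.h234.TrH_of_dim h
    · exact Run7.h234.TrH_of_centre (fun Z _ _ j hj hc => h Z j ⟨hj, hc⟩)
  have hfE : Module.Finite k (Run7.h234.QB π) :=
    Module.Finite.of_surjective (Run7.h234.pal (Run7.h234.qB π)).toLinearMap
      (Run7.h234.qB_surj π)
  have hfG : Module.Finite k (Run7.h234.QC k C) :=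
    Module.Finite.of_surjective (Run7.h234.pal (Run7.h234.qC k C)).toLinearMap
      Run7.h234.qC_surj
  have he : ∃ e : Run7.h234.QC k C, (∀ h, e * h = counit (R := k) h • e) ∧
      counit (R := k) e = 1 := by
    obtain h | h := hC
    · exact Run7.h234.e_of_dim h
    · have hss : IsSemisimpleRing (Run7.h234.QC k C) :=
        h _ (Run7.h234.qC k C) ⟨Run7.h234.qC_surj, fun c => Run7.h234.qC_cocen.tens c⟩
      exact Run7.h234.ss_right
  exact FGC.ofFG (Run7.h234.main_gen ι π hex.inj hex.surj hιπ hker hnl (Run7.h234.qB π)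
    (Run7.h234.qB_surj π)
    (fun a b hb => Run7.h234.adr_Jid ι π hιπ hnr ((Run7.h234.qB_zero π b).1 hb) a)
    (Run7.h234.rho π) (Run7.h234.rho_surj π hex.surj) (Run7.h234.rho_iota ι π hιπ)
    (Run7.h234.kerR_rho ι π hex.surj (Run7.h234.kerR_of ι π hker hnl)) htr (Or.inr he)
    fA.toFG fC.toFG)

/-- The main result: `A → C → B` exact, `C` finite-dimensional. -/
theorem result (k : Type u) [Field k] (A C B : Type u) [Ring A] [Ring C] [Ring B]
    [HopfAlgebra k A] [HopfAlgebra k C] [HopfAlgebra k B] [Module.Finite k C]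
    (ι : A →ₐc[k] C) (π : C →ₐc[k] B) (hex : IsExact k ι π)
    (hA : (Module.finrank k A : k) ≠ 0 ∨ CentralSS k A)
    (hB : (Module.finrank k B : k) ≠ 0 ∨ CocentralSS k B)
    (fA : FGC k A) (fB : FGC k B) : FGC k C :=
  main k A C B ι π hex hA hB fA fB

end Pool.Agent.Results.MP_d746d7_al.FgcExtensionAllModules
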